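import Pool.Agent.H80.JE.LOW
import Pool.Agent.H80.JD.FinA

/-!
# Largest cluster diameter of the asymmetric perceptron: the assembly
-/

set_option autoImplicit false

namespace Pool.Agent.H80.JE

open Finset Filter Topology Pool.Agent.H80.JD

lemma ale_mono {κ α b b' : ℝ} (h : ALe κ α b) (hb : b ≤ b') : ALe κ α b' := by
  refine tendsto_of_tendsto_of_tendsto_of_le_of_le h tendsto_const_nhds
    (fun n => prob_mono _ _ (fun G hG => ?_)) (fun n => prob_le_one _ _ _)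
  exact hG.trans (mul_le_mul_of_nonneg_right hb (Nat.cast_nonneg n))

lemma age_mono {κ α b b' : ℝ} (h : AGe κ α b) (hb : b' ≤ b) : AGe κ α b' := by
  refine tendsto_of_tendsto_of_tendsto_of_le_of_le h tendsto_const_nhds
    (fun n => prob_mono _ _ (fun G hG => ?_)) (fun n => prob_le_one _ _ _)
  exact (mul_le_mul_of_nonneg_right hb (Nat.cast_nonneg n)).trans hG

lemma age_of_nonpos (κ α b : ℝ) (hb : b ≤ 0) : AGe κ α b := by
  refine tendsto_prob_one_of_true _ (fun n G => ?_)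
  exact (mul_nonpos_of_nonpos_of_nonneg hb (Nat.cast_nonneg n)).trans (Nat.cast_nonneg _)

lemma age_ale {κ α a b : ℝ} (h1 : AGe κ α a) (h2 : ALe κ α b) : a ≤ b :=
  le_of_whp (m := fun n => ⌊α * n⌋₊) (fun _ G => (diam (ABP κ G) : ℝ)) a b h1 h2

/-- CU2 in explicit form -/
def T_CU2E : Prop :=
  ∀ ε : ℝ, 0 < ε → ε < 1 → ∃ K : ℕ, 4 ≤ K ∧ ∀ κ α : ℝ, 0 < κ → 10 ^ 8 ≤ ε ^ 4 * κ ^ 2 → 0 < α →
    curve (α * κ ^ 2) ≤ ε ∨ ∃ τ : ℝ, 0 < τ ∧
      κ * Real.sqrt α + 96000 * K * α ≤ (1 - 3 / K) * ph τ ∧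
      curve (α * κ ^ 2) - ε < (1 - 2 / K) * Φ τ

lemma ale_of_ple {κ α b : ℝ} (hb : 0 ≤ b) (h : PLe κ α b) : ALe κ α b := by
  refine tendsto_of_tendsto_of_tendsto_of_le_of_le h tendsto_const_nhds
    (fun n => prob_mono _ _ (fun G hG => ?_)) (fun n => prob_le_one _ _ _)
  have hbn : 0 ≤ b * n := mul_nonneg hb (Nat.cast_nonneg n)
  have hd : diam (ABP κ G) ≤ ⌊b * n⌋₊ :=
    diam_le (fun x y hxy => Nat.le_floor (hG x y hxy.left hxy.right))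
  exact (Nat.cast_le.2 hd).trans (Nat.floor_le hbn)

/-- the upper bound -/
theorem fin_upper (hUPB : T_UPB') (hCU1 : T_CU1) (κ α ε : ℝ) (hκ : 0 < κ)
    (hα : 0 < α) (hε : 0 < ε) : PLe κ α (curve (α * κ ^ 2) + ε) := by
  obtain ⟨τ, hτ, h⟩ := hCU1 (α * κ ^ 2) ε (by positivity) hε
  refine hUPB κ α τ _ hκ hα hτ ?_
  have h1 : Real.sqrt (α * κ ^ 2) = κ * Real.sqrt α := by
    rw [Real.sqrt_mul hα.le, Real.sqrt_sq hκ.le, mul_comm]
  rw [h1] at h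
  exact h

lemma Φ_le_one (t : ℝ) : Φ t ≤ 1 := by
  unfold Φ
  exact MeasureTheory.measureReal_le_one

lemma ph_le (τ : ℝ) : ph τ ≤ Real.sqrt (2 / Real.pi) := by
  unfold ph
  have h2 : Real.exp (-(τ ^ 2 / 2)) ≤ 1 := by
    rw [Real.exp_le_one_iff]
    nlinarith [sq_nonneg τ]
  calc Real.sqrt (2 / Real.pi) * Real.exp (-(τ ^ 2 / 2)) ≤ Real.sqrt (2 / Real.pi) * 1 :=
        mul_le_mul_of_nonneg_left h2 (Real.sqrt_nonneg _)
    _ = Real.sqrt (2 / Real.pi) := mul_one _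

/-- no solutions above `2 / (π κ²)` -/
theorem fin_unsat (hUPB : T_UPB') (κ α : ℝ) (hκ : 0 < κ) (hα : 2 / Real.pi < α * κ ^ 2) :
    Tendsto (fun n : ℕ => prob ⌊α * n⌋₊ n (fun G => ∀ x, ¬ ABP κ G x)) atTop (𝓝 1) := by
  have hpi := Real.pi_pos
  have hα0 : 0 < α := by
    have h1 : 0 < α * κ ^ 2 := lt_trans (by positivity) hα
    exact pos_of_mul_pos_left h1 (by positivity)
  have hs : Real.sqrt (2 / Real.pi) < κ * Real.sqrt α := by
    have h1 : Real.sqrt (α * κ ^ 2) = κ * Real.sqrt α := by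
      rw [Real.sqrt_mul hα0.le, Real.sqrt_sq hκ.le, mul_comm]
    rw [← h1]
    exact Real.sqrt_lt_sqrt (by positivity) hα
  set τ : ℝ := (κ * Real.sqrt α - Real.sqrt (2 / Real.pi)) / 3 with hτ
  have hτ0 : 0 < τ := by rw [hτ]; linarith
  have h1 : 1 - (κ * Real.sqrt α - (ph τ - τ * (1 - Φ τ))) / τ < -1 := by
    have h2 : 3 * τ ≤ κ * Real.sqrt α - (ph τ - τ * (1 - Φ τ)) := by
      have h3 := ph_le τ
      have h4 := mul_nonneg hτ0.le (sub_nonneg.2 (Φ_le_one τ))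
      have h5 : 3 * τ = κ * Real.sqrt α - Real.sqrt (2 / Real.pi) := by rw [hτ]; ring
      linarith
    have h3 : 3 ≤ (κ * Real.sqrt α - (ph τ - τ * (1 - Φ τ))) / τ := by
      rw [le_div_iff₀ hτ0]
      exact h2
    linarith
  have h2 := hUPB κ α τ (-1) hκ hα0 hτ0 h1
  refine tendsto_prob_one (m := fun n => ⌊α * n⌋₊) (fun n G => ∀ x, ¬ ABP κ G x)
    (fun n G => ¬ ∀ x y, ABP κ G x → ABP κ G y → (hammingDist x y : ℝ) ≤ -1 * n) _ ?_
    (Eventually.of_forall fun n => le_refl _) ?_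
  · filter_upwards [eventually_ge_atTop 1] with n hn G hG hF
    push Not at hG
    obtain ⟨x, hx⟩ := hG
    have h3 := hF x x hx hx
    have h4 : (1 : ℝ) ≤ n := by exact_mod_cast hn
    have h5 : (0 : ℝ) ≤ (hammingDist x x : ℕ) := Nat.cast_nonneg _
    linarith
  · have h3 : (fun n : ℕ => prob ⌊α * n⌋₊ n (fun G => ¬ ∀ x y, ABP κ G x → ABP κ G y →
        (hammingDist x y : ℝ) ≤ -1 * n)) = fun n : ℕ => 1 - prob ⌊α * n⌋₊ n
        (fun G => ∀ x y, ABP κ G x → ABP κ G y → (hammingDist x y : ℝ) ≤ -1 * n) := by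
      funext n
      have := prob_add_not ⌊α * n⌋₊ n (fun G => ∀ x y, ABP κ G x → ABP κ G y →
        (hammingDist x y : ℝ) ≤ -1 * n)
      linarith
    rw [h3]
    have h4 := Filter.Tendsto.const_sub (1 : ℝ) h2
    rw [sub_self] at h4
    exact h4

/-- the bound for the jumps -/
theorem fin_jump (hCU3 : T_CU3) (κ e : ℝ) (hκ : 0 < κ)
    (hU : ∀ α ε : ℝ, 0 < α → 0 < ε → ALe κ α (curve (α * κ ^ 2) + ε))
    (hL : ∀ α : ℝ, 0 < α → AGe κ α (curve (α * κ ^ 2) - e)) (α₀ c δ : ℝ) (hα₀ : 0 < α₀)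
    (h : ∃ η > 0, (∀ α, α₀ - η < α → α < α₀ → AGe κ α (c + δ)) ∧
        ∀ α, α₀ < α → α < α₀ + η → ALe κ α c) : δ ≤ e := by
  obtain ⟨hcont, -, -⟩ := hCU3
  obtain ⟨η, hη, hge, hle⟩ := h
  have hcc : ContinuousAt (fun α => curve (α * κ ^ 2)) α₀ := by
    have h1 : ContinuousAt (fun α : ℝ => α * κ ^ 2) α₀ := by fun_prop
    exact ContinuousAt.comp (f := fun α : ℝ => α * κ ^ 2) (g := curve)
      (hcont (α₀ * κ ^ 2) (by positivity)) h1
  have h1 : c + δ ≤ curve (α₀ * κ ^ 2) := by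
    refine jump_le α₀ (c + δ) (α₀ / 2) (fun α => curve (α * κ ^ 2)) η hη (by linarith) hcc ?_
    intro α h2 h3 h4
    refine le_of_forall_pos_le_add (fun e he => ?_)
    exact age_ale (hge α h2 h3) (hU α e (by linarith) he)
  have h2 : curve (α₀ * κ ^ 2) - e ≤ c := by
    have h3 : Tendsto (fun α => curve (α * κ ^ 2) - e) (𝓝[>] α₀)
        (𝓝 (curve (α₀ * κ ^ 2) - e)) :=
      (hcc.tendsto.mono_left nhdsWithin_le_nhds).sub_const _
    refine le_of_tendsto h3 ?_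
    have e1 : ∀ᶠ α in 𝓝[>] α₀, α₀ < α := self_mem_nhdsWithin
    have e2 : ∀ᶠ α in 𝓝[>] α₀, α < α₀ + η := nhdsWithin_le_nhds (gt_mem_nhds (by linarith))
    filter_upwards [e1, e2] with α h4 h5
    exact age_ale (hL α (by linarith)) (hle α h4 h5)
  linarith

/-- the theorem with an explicit rate -/
def StatementE2 : Prop :=
  ∀ κ : ℝ, 0 < κ →
    (∀ α : ℝ, 2 / Real.pi < α * κ ^ 2 →
      Tendsto (fun n : ℕ => prob ⌊α * n⌋₊ n (fun G => ∀ x, ¬ ABP κ G x)) atTop (𝓝 1)) ∧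
    (∀ α ε : ℝ, 0 < α → 0 < ε → PLe κ α (curve (α * κ ^ 2) + ε)) ∧
    (∀ α : ℝ, 0 < α → AGe κ α (curve (α * κ ^ 2) - 100 / Real.sqrt κ)) ∧
    ∀ α₀ c δ : ℝ, 0 < α₀ →
      (∃ η > 0, (∀ α, α₀ - η < α → α < α₀ → AGe κ α (c + δ)) ∧
        ∀ α, α₀ < α → α < α₀ + η → ALe κ α c) → δ ≤ 100 / Real.sqrt κ

theorem finE (hUPB : T_UPB') (hLOW : T_LOW) (hCU1 : T_CU1) (hCU2 : T_CU2E) (hCU3 : T_CU3) :
    StatementE2 := by
  intro κ hκ
  have hU : ∀ α ε : ℝ, 0 < α → 0 < ε → PLe κ α (curve (α * κ ^ 2) + ε) :=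
    fun α ε hα hε => fin_upper hUPB hCU1 κ α ε hκ hα hε
  have hL : ∀ α : ℝ, 0 < α → AGe κ α (curve (α * κ ^ 2) - 100 / Real.sqrt κ) := by
    intro α hα
    set ε : ℝ := 100 / Real.sqrt κ with hε
    have hsk : 0 < Real.sqrt κ := Real.sqrt_pos.2 hκ
    have hε0 : 0 < ε := by rw [hε]; positivity
    by_cases hε1 : ε < 1
    · obtain ⟨K, hK, hCU⟩ := hCU2 ε hε0 hε1
      have h4 : ε ^ 4 * κ ^ 2 = 10 ^ 8 := by
        have h5 : Real.sqrt κ ^ 4 = κ ^ 2 := by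
          rw [show (4 : ℕ) = 2 * 2 from rfl, pow_mul, Real.sq_sqrt hκ.le]
        rw [hε, div_pow, h5]
        field_simp
        norm_num
      rcases hCU κ α hκ h4.ge hα with h | ⟨τ, hτ, h1, h2⟩
      · exact age_of_nonpos κ α _ (by linarith)
      · exact hLOW K κ α τ _ hK hκ hα hτ h1 h2
    · refine age_of_nonpos κ α _ ?_
      have : curve (α * κ ^ 2) ≤ 1 := Φ_le_one _
      linarith
  have hA : ∀ α ε : ℝ, 0 < α → 0 < ε → ALe κ α (curve (α * κ ^ 2) + ε) := by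
    intro α ε hα hε
    have := hCU3.2.1 (α * κ ^ 2)
    exact ale_of_ple (by linarith) (hU α ε hα hε)
  exact ⟨fun α hα => fin_unsat hUPB κ α hκ hα, hU, hL,
    fun α₀ c δ hα₀ h => fin_jump hCU3 κ _ hκ hA hL α₀ c δ hα₀ h⟩

end Pool.Agent.H80.JE
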