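import Pool.Agent.H80.JE.UPB

/-!
# Largest cluster diameter of the asymmetric perceptron: the lower bound
-/

set_option autoImplicit false

namespace Pool.Agent.H80.JE

open Finset Filter Topology Pool.Agent.H80.JD

lemma ph_pos (τ : ℝ) : 0 < ph τ := by
  unfold ph
  have := Real.pi_pos
  positivity

lemma ph_le_one (τ : ℝ) : ph τ ≤ 1 := by
  unfold ph
  have h1 : Real.sqrt (2 / Real.pi) ≤ 1 := by
    rw [Real.sqrt_le_one]
    have := Real.pi_gt_three
    rw [div_le_one (by linarith)]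
    linarith
  have h2 : Real.exp (-(τ ^ 2 / 2)) ≤ 1 := by
    rw [Real.exp_le_one_iff]
    nlinarith [sq_nonneg τ]
  calc Real.sqrt (2 / Real.pi) * Real.exp (-(τ ^ 2 / 2)) ≤ 1 * 1 :=
        mul_le_mul h1 h2 (Real.exp_pos _).le zero_le_one
    _ = 1 := by norm_num

lemma pot2_start (m : ℕ) (B A : ℝ) (hB : 0 < B) :
    pot2 B A ((fun _ => B, fun _ => 0) : St m) = 2 * m := by
  unfold pot2 gg pot ff hh
  simp [hB, hB.ne']
  ring

lemma prob_pairs (m n K : ℕ) (hK : 1 ≤ K) (Q : (Fin n → (Fin m → Bool) × Fin K) → Prop) :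
    prob m n (fun G => ∀ u : Fin n → Fin K, Q (fun i => (fun j => G j i, u i))) ≤
      (Nat.card {c : Fin n → (Fin m → Bool) × Fin K // Q c} : ℝ) /
        (Fintype.card ((Fin m → Bool) × Fin K) : ℝ) ^ n := by
  have h1 : Nat.card ({G : Fin m → Fin n → Bool //
      ∀ u : Fin n → Fin K, Q (fun i => (fun j => G j i, u i))} × (Fin n → Fin K)) ≤
      Nat.card {c : Fin n → (Fin m → Bool) × Fin K // Q c} := by
    refine Nat.card_le_card_of_injective
      (fun p => (⟨fun i => (fun j => p.1.1 j i, p.2 i), p.1.2 p.2⟩ :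
        {c : Fin n → (Fin m → Bool) × Fin K // Q c})) ?_
    rintro ⟨⟨G, hG⟩, u⟩ ⟨⟨G', hG'⟩, u'⟩ h
    have h2 := congrArg Subtype.val h
    simp only at h2
    have h3 : ∀ i, (fun j => G j i) = (fun j => G' j i) ∧ u i = u' i := by
      intro i
      have h4 := congrFun h2 i
      exact Prod.mk.inj h4
    have h5 : G = G' := by
      funext j i
      exact congrFun (h3 i).1 j
    have h6 : u = u' := funext fun i => (h3 i).2
    subst h5
    subst h6
    rfl
  rw [Nat.card_prod] at h1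
  have h2 : Nat.card (Fin n → Fin K) = K ^ n := by simp
  rw [h2] at h1
  have h3 : (Fintype.card ((Fin m → Bool) × Fin K) : ℝ) ^ n = (K : ℝ) ^ n * 2 ^ (m * n) := by
    rw [Fintype.card_prod, Fintype.card_fin, Fintype.card_pi]
    simp [mul_pow, ← pow_mul, mul_comm]
  have hK0 : (0 : ℝ) < K := by exact_mod_cast hK
  unfold prob
  rw [h3, div_le_div_iff₀ (by positivity) (by positivity)]
  have h4 : ((Nat.card {G : Fin m → Fin n → Bool //
      ∀ u : Fin n → Fin K, Q (fun i => (fun j => G j i, u i))} : ℕ) : ℝ) * (K : ℝ) ^ n ≤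
      (Nat.card {c : Fin n → (Fin m → Bool) × Fin K // Q c} : ℕ) := by
    exact_mod_cast h1
  calc _ = (((Nat.card {G : Fin m → Fin n → Bool //
      ∀ u : Fin n → Fin K, Q (fun i => (fun j => G j i, u i))} : ℕ) : ℝ) * (K : ℝ) ^ n) *
        2 ^ (m * n) := by ring
    _ ≤ _ := mul_le_mul_of_nonneg_right h4 (by positivity)

open Classical in
/-- indicator function of the free columns -/
noncomputable def fC (τ : ℝ) {m K : ℕ} (c : (Fin m → Bool) × Fin K) : ℝ :=
  if Core τ c.1 c.2 then 0 else 1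

open Classical in
lemma sum_fC (τ : ℝ) (m K : ℕ) (hK : 4 ≤ K) :
    ((K : ℝ) - 2) * (2 ^ m - (bigs τ m).card) ≤ ∑ c : (Fin m → Bool) × Fin K, fC τ c := by
  rw [Fintype.sum_prod_type]
  have h1 : ∀ v : Fin m → Bool, (if Big τ v then 0 else ((K : ℝ) - 2)) ≤ ∑ u : Fin K, fC τ (v, u) := by
    intro v
    split_ifs with hv
    · refine Finset.sum_nonneg (fun u _ => ?_)
      unfold fC
      split_ifs <;> norm_num
    · obtain ⟨K', rfl⟩ : ∃ K', K = K' + 1 := ⟨K - 1, by omega⟩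
      rw [Fin.sum_univ_succ]
      have h2 : ∀ i : Fin K', fC τ (v, i.succ) = 1 := by
        intro i
        unfold fC Core
        rw [if_neg]
        simp [hv]
      have h3 : 0 ≤ fC τ (v, (0 : Fin (K' + 1))) := by
        unfold fC
        split_ifs <;> norm_num
      simp only [h2, Finset.sum_const, Finset.card_univ, Fintype.card_fin, nsmul_eq_mul, mul_one]
      push_cast
      linarith
  refine le_trans (le_of_eq ?_) (Finset.sum_le_sum fun v _ => h1 v)
  rw [Finset.sum_ite]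
  simp only [Finset.sum_const_zero, zero_add, Finset.sum_const, nsmul_eq_mul]
  have h4 := Finset.card_filter_add_card_filter_not (s := (univ : Finset (Fin m → Bool)))
    (fun v => Big τ v)
  have h5 : (univ : Finset (Fin m → Bool)).card = 2 ^ m := by simp
  rw [h5] at h4
  have h6 : (((bigs τ m).card : ℕ) : ℝ) +
      ((univ.filter (fun v : Fin m → Bool => ¬ Big τ v)).card : ℕ) = 2 ^ m := by
    exact_mod_cast h4
  have h7 : ((univ.filter (fun v : Fin m → Bool => ¬ Big τ v)).card : ℝ) =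
      2 ^ m - (bigs τ m).card := by linarith
  rw [h7]
  ring

lemma mean_ge (τ : ℝ) (m K : ℕ) (hK : 4 ≤ K) :
    (1 - 2 / (K : ℝ)) * (1 - ((bigs τ m).card : ℝ) / 2 ^ m) ≤
      (∑ c : (Fin m → Bool) × Fin K, fC τ c) / Fintype.card ((Fin m → Bool) × Fin K) := by
  have hK0 : (0 : ℝ) < K := by
    have : 0 < K := by omega
    exact_mod_cast this
  have h1 : (Fintype.card ((Fin m → Bool) × Fin K) : ℝ) = 2 ^ m * K := by
    rw [Fintype.card_prod, Fintype.card_fin, Fintype.card_pi]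
    simp
  rw [h1, le_div_iff₀ (by positivity)]
  refine le_trans (le_of_eq ?_) (sum_fC τ m K hK)
  field_simp

open Classical in
/-- the deterministic part -/
lemma low_det (hPTH3 : T_PTH3) (hPTH4 : T_PTH4) (m K : ℕ) (κ B A γ τ : ℝ) (n : ℕ) (hA : 0 ≤ A)
    (hkey : κ * Real.sqrt n + 3 * B ≤ n * γ - B) (G : Fin m → Fin n → Bool)
    (u : Fin n → Fin K)
    (hbad : ¬ badSeq (stp2 B γ τ) (pot2 B A) A n (fun _ => B, fun _ => 0)
      (fun i => (fun j => G j i, u i))) :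
    ∑ i, fC τ (fun j => G j i, u i) ≤ (diam (ABP κ G) : ℝ) := by
  obtain ⟨x, hx1, hx2⟩ := hPTH3 m K B A γ τ n _ _ hA hbad
  set F : Finset (Fin n) := univ.filter (fun i : Fin n => ¬ Core τ (fun j => G j i) (u i)) with hF
  have hFc : Fᶜ = univ.filter (fun i : Fin n => Core τ (fun j => G j i) (u i)) := by
    ext i
    simp [hF]
  have h1 : F.card ≤ diam (ABP κ G) := by
    refine hPTH4 m n κ B (n * γ - B) G x F ?_ ?_ hkey
    · intro j
      have h2 := hx1 j
      rw [hFc]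
      simp only at h2
      linarith
    · intro t ht j
      have h2 := hx2 t ht j
      rw [hF, Finset.filter_filter]
      simpa using h2
  have h2 : ∑ i, fC τ (fun j => G j i, u i) = (F.card : ℝ) := by
    unfold fC
    rw [Finset.sum_ite]
    simp [hF]
  rw [h2]
  exact_mod_cast h1

/-- the probability that the walk leaves the good set -/
lemma low_smg (hSMG : T_SMG) (hONE2 : T_ONE2) (m K n : ℕ) (B γ τ : ℝ) (hm : 1 ≤ m) (hK : 4 ≤ K)
    (hB : B = 24000 * K * Real.sqrt m) (hγ0 : 0 ≤ γ) (hγ1 : γ ≤ 1)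
    (hγ : γ * m * 2 ^ m ≤ (1 - 2 / K) * MB τ m) :
    (Nat.card {c : Fin n → (Fin m → Bool) × Fin K // badSeq (stp2 B γ τ) (pot2 B (128 * m))
      (128 * m) n (fun _ => B, fun _ => 0) c} : ℝ) ≤
      (((n : ℝ) + 1) * Real.exp (-(3 / K * Real.sqrt (Real.sqrt m)))) *
        (Fintype.card ((Fin m → Bool) × Fin K) : ℝ) ^ n := by
  have hm0 : (0 : ℝ) < m := by exact_mod_cast hm
  have hK0 : (0 : ℝ) < K := by
    have : 0 < K := by omega
    exact_mod_cast this
  have hB0 : 0 < B := by rw [hB]; positivity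
  obtain ⟨hone1, hone2⟩ := hONE2 m K B γ τ hm hK hB hγ0 hγ1 hγ
  set q : ℝ := Real.sqrt (Real.sqrt m) with hq
  have hq0 : 0 < q := by positivity
  have hq4 : q ^ 4 = m := by
    have h2 : q ^ 2 = Real.sqrt m := Real.sq_sqrt (by positivity)
    have h3 : (q ^ 2) ^ 2 = m := by rw [h2]; exact Real.sq_sqrt hm0.le
    rw [← h3]; ring
  have hS := hSMG (St m) ((Fin m → Bool) × Fin K) (stp2 B γ τ) (pot2 B (128 * m)) (64 * m) (72 * m)
    (128 * m) (1 / (16 * K * q ^ 3)) (by positivity) hone1 hone2 n (fun _ => B, fun _ => 0)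
  rw [pot2_start m B _ hB0] at hS
  refine hS.trans ?_
  have e1 : 1 / (16 * K * q ^ 3) * (2 * (m : ℝ) - 128 * m) ≤ -(3 / K * q) := by
    rw [← hq4]
    have : 1 / (16 * K * q ^ 3) * (2 * q ^ 4 - 128 * q ^ 4) = -(63 / 8 / K * q) := by
      field_simp; ring
    rw [this]
    have h5 : 3 / (K : ℝ) * q ≤ 63 / 8 / K * q := by
      gcongr; norm_num
    linarith
  have e2 : 1 / (16 * K * q ^ 3) * (72 * (m : ℝ) - 128 * m) ≤ -(3 / K * q) := by
    rw [← hq4]
    have : 1 / (16 * K * q ^ 3) * (72 * q ^ 4 - 128 * q ^ 4) = -(7 / 2 / K * q) := by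
      field_simp; ring
    rw [this]
    have h5 : 3 / (K : ℝ) * q ≤ 7 / 2 / K * q := by
      gcongr; norm_num
    linarith
  have e3 := Real.exp_le_exp.mpr e1
  have e4 := Real.exp_le_exp.mpr e2
  have hn0 : (0 : ℝ) ≤ n := Nat.cast_nonneg n
  have : Real.exp (1 / (16 * K * q ^ 3) * (2 * (m : ℝ) - 128 * m)) +
      n * Real.exp (1 / (16 * K * q ^ 3) * (72 * (m : ℝ) - 128 * m)) ≤
      ((n : ℝ) + 1) * Real.exp (-(3 / K * q)) := by
    nlinarith [mul_le_mul_of_nonneg_left e4 hn0]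
  gcongr

lemma key_ineq (K m n : ℕ) (κ α p B : ℝ) (hκ : 0 < κ) (hα : 0 < α) (hm : 1 ≤ m)
    (hmn : (m : ℝ) ≤ α * n) (hB : B = 24000 * K * Real.sqrt m)
    (hcond : κ * Real.sqrt α + 96000 * K * α ≤ p) :
    κ * Real.sqrt n + 3 * B ≤ n * (p / Real.sqrt m) - B := by
  have hm0 : (0 : ℝ) < m := by exact_mod_cast hm
  have hn0 : (0 : ℝ) ≤ n := Nat.cast_nonneg n
  have hK0 : (0 : ℝ) ≤ K := Nat.cast_nonneg K
  have hsm : 0 < Real.sqrt m := Real.sqrt_pos.2 hm0
  have h1 : Real.sqrt m ≤ Real.sqrt α * Real.sqrt n := by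
    rw [← Real.sqrt_mul hα.le]
    exact Real.sqrt_le_sqrt hmn
  have h2 : Real.sqrt n * Real.sqrt m ≤ Real.sqrt α * n := by
    have h3 : Real.sqrt n * Real.sqrt m ≤ Real.sqrt n * (Real.sqrt α * Real.sqrt n) :=
      mul_le_mul_of_nonneg_left h1 (Real.sqrt_nonneg _)
    have h4 : Real.sqrt n * (Real.sqrt α * Real.sqrt n) = Real.sqrt α * n := by
      have := Real.mul_self_sqrt hn0
      calc _ = Real.sqrt α * (Real.sqrt n * Real.sqrt n) := by ring
        _ = _ := by rw [this]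
    linarith
  have h3 : (κ * Real.sqrt n + 4 * B) * Real.sqrt m ≤ n * p := by
    have h4 : (κ * Real.sqrt n + 4 * B) * Real.sqrt m =
        κ * (Real.sqrt n * Real.sqrt m) + 96000 * K * m := by
      have := Real.mul_self_sqrt hm0.le
      rw [hB]
      calc _ = κ * (Real.sqrt n * Real.sqrt m) + 96000 * K * (Real.sqrt m * Real.sqrt m) := by ring
        _ = _ := by rw [this]
    rw [h4]
    have h5 : κ * (Real.sqrt n * Real.sqrt m) ≤ κ * (Real.sqrt α * n) :=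
      mul_le_mul_of_nonneg_left h2 hκ.le
    have h6 : 96000 * (K : ℝ) * m ≤ 96000 * K * (α * n) :=
      mul_le_mul_of_nonneg_left hmn (by positivity)
    have h7 := mul_le_mul_of_nonneg_left hcond hn0
    linarith
  have h4 : κ * Real.sqrt n + 4 * B ≤ n * p / Real.sqrt m := by
    rw [le_div_iff₀ hsm]
    exact h3
  rw [mul_div_assoc] at h4
  linarith

/-- the bad event -/
def QQ (K : ℕ) (τ p ε : ℝ) (m n : ℕ) (c : Fin n → (Fin m → Bool) × Fin K) : Prop :=
  badSeq (stp2 (24000 * K * Real.sqrt m) (p / Real.sqrt m) τ)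
    (pot2 (24000 * K * Real.sqrt m) (128 * m)) (128 * m) n
    (fun _ => 24000 * K * Real.sqrt m, fun _ => 0) c ∨
  ε * n ≤ |∑ i, fC τ (c i) -
    n * ((∑ c : (Fin m → Bool) × Fin K, fC τ c) / Fintype.card ((Fin m → Bool) × Fin K))|

lemma card_QQ_le {V : Type} [Finite V] (P Q : V → Prop) :
    (Nat.card {c : V // P c ∨ Q c} : ℝ) ≤ Nat.card {c : V // P c} + Nat.card {c : V // Q c} := by
  classical
  have := Fintype.ofFinite V
  rw [Nat.card_eq_fintype_card, Nat.card_eq_fintype_card, Nat.card_eq_fintype_card]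
  exact_mod_cast Fintype.card_subtype_or P Q

lemma prob_QQ (hSMG : T_SMG) (hONE2 : T_ONE2) (hLLN : T_LLN) (K : ℕ) (τ p ε : ℝ) (m n : ℕ)
    (hK : 4 ≤ K) (hm : 1 ≤ m) (hn : 1 ≤ n) (hε : 0 < ε) (hp0 : 0 ≤ p) (hp1 : p ≤ 1)
    (hp : p ≤ (1 - 2 / K) * (MB τ m / (Real.sqrt m * 2 ^ m))) :
    (Nat.card {c : Fin n → (Fin m → Bool) × Fin K // QQ K τ p ε m n c} : ℝ) /
      (Fintype.card ((Fin m → Bool) × Fin K) : ℝ) ^ n ≤
      ((n : ℝ) + 1) * Real.exp (-(3 / K * Real.sqrt (Real.sqrt m))) + 1 / (ε ^ 2 * n) := by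
  have hm0 : (0 : ℝ) < m := by exact_mod_cast hm
  have hm1 : (1 : ℝ) ≤ m := by exact_mod_cast hm
  have hsm : 0 < Real.sqrt m := Real.sqrt_pos.2 hm0
  have hsm1 : 1 ≤ Real.sqrt m := Real.one_le_sqrt.2 hm1
  have hKp : 0 < K := by omega
  have : Nonempty (Fin K) := ⟨⟨0, hKp⟩⟩
  have hcard : 0 < (Fintype.card ((Fin m → Bool) × Fin K) : ℝ) := by
    exact_mod_cast Fintype.card_pos
  have h1 := low_smg hSMG hONE2 m K n (24000 * K * Real.sqrt m) (p / Real.sqrt m) τ hm hK rfl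
    (by positivity) (by rw [div_le_one hsm]; linarith) (by
      have h2 : p / Real.sqrt m * m * 2 ^ m = p * (Real.sqrt m * 2 ^ m) := by
        have h3 := Real.mul_self_sqrt hm0.le
        calc p / Real.sqrt m * m * 2 ^ m =
            p / Real.sqrt m * (Real.sqrt m * Real.sqrt m) * 2 ^ m := by rw [h3]
          _ = p * (Real.sqrt m * 2 ^ m) := by field_simp
      rw [h2]
      have h4 : 0 < Real.sqrt m * (2 : ℝ) ^ m := by positivity
      have h5 := mul_le_mul_of_nonneg_right hp h4.le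
      rw [mul_assoc, div_mul_cancel₀ _ h4.ne'] at h5
      exact h5)
  have h2 := hLLN ((Fin m → Bool) × Fin K) (fC τ) 1 ε n hn hε (by
    rw [one_mul]
    have h3 : ∀ c : (Fin m → Bool) × Fin K, fC τ c ^ 2 ≤ 1 := by
      intro c
      unfold fC
      split_ifs <;> norm_num
    refine (Finset.sum_le_sum fun c _ => h3 c).trans ?_
    simp)
  rw [div_le_iff₀ (by positivity)]
  unfold QQ
  refine (card_QQ_le _ _).trans ?_
  rw [add_mul]
  exact add_le_add h1 h2

theorem low (hSMG : T_SMG) (hONE2 : T_ONE2) (hPTH3 : T_PTH3) (hPTH4 : T_PTH4) (hEV2 : T_EV2)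
    (hEV3 : T_EV3) (hLLN : T_LLN) (hASY2 : T_ASY2) : T_LOW := by
  intro K κ α τ b hK hκ hα hτ hcond hb
  have hK4 : (4 : ℝ) ≤ K := by exact_mod_cast hK
  have hK0 : (0 : ℝ) < K := by linarith
  have hKd : 0 < 1 - 2 / (K : ℝ) := by
    have : 2 / (K : ℝ) ≤ 2 / 4 := by gcongr
    linarith
  have hKe : 0 < 1 / (K : ℝ) := by positivity
  have hKf : 1 / (K : ℝ) ≤ 1 / 4 := by gcongr
  set p : ℝ := (1 - 2 / K) * ((1 - 1 / K) * ph τ) with hp
  have hph := ph_pos τ
  have hph1 := ph_le_one τ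
  have hp0 : 0 ≤ p := by
    have : 0 < 1 - 1 / (K : ℝ) := by linarith
    positivity
  have hpk : (1 - 3 / K) * ph τ ≤ p := by
    rw [hp, ← mul_assoc]
    refine mul_le_mul_of_nonneg_right ?_ hph.le
    have : (1 - 2 / (K : ℝ)) * (1 - 1 / K) = 1 - 3 / K + 2 / K ^ 2 := by
      field_simp; ring
    rw [this]
    have : 0 ≤ 2 / (K : ℝ) ^ 2 := by positivity
    linarith
  have hp1 : p ≤ 1 := by
    have h1 : (1 - 1 / K) * ph τ ≤ 1 := by nlinarith
    have h2 : 0 ≤ 2 / (K : ℝ) := by positivity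
    have h3 : 0 ≤ (1 - 1 / K) * ph τ := by
      have : 0 < 1 - 1 / (K : ℝ) := by linarith
      positivity
    rw [hp]
    nlinarith
  set ε : ℝ := ((1 - 2 / K) * Φ τ - b) / 2 with hε
  have hε0 : 0 < ε := by rw [hε]; linarith
  refine tendsto_prob_one (m := fun n => ⌊α * n⌋₊)
    (fun n G => b * n ≤ (diam (ABP κ G) : ℝ))
    (fun n G => ∀ u : Fin n → Fin K, QQ K τ p ε ⌊α * n⌋₊ n (fun i => (fun j => G j i, u i)))
    (fun n => ((n : ℝ) + 1) * Real.exp (-(3 / K * Real.sqrt (Real.sqrt (⌊α * n⌋₊ : ℕ)))) +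
      1 / (ε ^ 2 * n)) ?_ ?_ ?_
  · have h1 : ∀ᶠ n : ℕ in atTop, 1 ≤ ⌊α * n⌋₊ := (tendsto_floor α hα).eventually_ge_atTop 1
    have h2 : Tendsto (fun m : ℕ => (1 - 2 / (K : ℝ)) * (1 - ((bigs τ m).card : ℝ) / 2 ^ m)) atTop
        (𝓝 ((1 - 2 / K) * (1 - (1 - Φ τ)))) := ((hEV3 τ hτ).const_sub 1).const_mul _
    have h3 : ∀ᶠ n : ℕ in atTop, (1 - 2 / (K : ℝ)) * Φ τ - ε <
        (1 - 2 / (K : ℝ)) * (1 - ((bigs τ ⌊α * n⌋₊).card : ℝ) / 2 ^ ⌊α * n⌋₊) :=
      (h2.comp (tendsto_floor α hα)).eventually_const_lt (by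
        have : (1 - 2 / (K : ℝ)) * (1 - (1 - Φ τ)) = (1 - 2 / (K : ℝ)) * Φ τ := by ring
        rw [this]; linarith)
    filter_upwards [h1, h3, eventually_ge_atTop 1] with n hm hbg hn G hG u
    by_contra hQ
    apply hG
    unfold QQ at hQ
    rw [not_or, not_le] at hQ
    obtain ⟨hQ1, hQ2⟩ := hQ
    have hn0 : (0 : ℝ) ≤ n := Nat.cast_nonneg n
    have h4 := low_det hPTH3 hPTH4 ⌊α * n⌋₊ K κ (24000 * K * Real.sqrt (⌊α * n⌋₊ : ℕ))
      (128 * (⌊α * n⌋₊ : ℕ)) (p / Real.sqrt (⌊α * n⌋₊ : ℕ)) τ n (by positivity)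
      (key_ineq K _ n κ α p _ hκ hα hm (Nat.floor_le (by positivity)) rfl (hcond.trans hpk))
      G u hQ1
    refine le_trans ?_ h4
    have h5 := mean_ge τ ⌊α * n⌋₊ K hK
    have h6 := (abs_lt.1 hQ2).1
    have h7 := mul_le_mul_of_nonneg_left (hbg.le.trans h5) hn0
    have h8 : b = (1 - 2 / (K : ℝ)) * Φ τ - ε - ε := by rw [hε]; ring
    rw [h8]
    linarith
  · have h1 : ∀ᶠ n : ℕ in atTop, 1 ≤ ⌊α * n⌋₊ := (tendsto_floor α hα).eventually_ge_atTop 1
    have h2 : ∀ᶠ n : ℕ in atTop, (1 - 1 / (K : ℝ)) * ph τ <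
        MB τ ⌊α * n⌋₊ / (Real.sqrt (⌊α * n⌋₊ : ℕ) * 2 ^ ⌊α * n⌋₊) :=
      ((hEV2 τ hτ).comp (tendsto_floor α hα)).eventually_const_lt (by nlinarith)
    filter_upwards [h1, h2, eventually_ge_atTop 1] with n hm hMB hn
    refine (prob_pairs _ n K (by omega) _).trans ?_
    exact prob_QQ hSMG hONE2 hLLN K τ p ε _ n hK hm hn hε0 hp0 hp1
      (mul_le_mul_of_nonneg_left hMB.le hKd.le)
  · have h1 := hASY2 α (3 / K) hα (by positivity)
    have h2 := h1.add (tendsto_inv_mul ε)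
    rw [add_zero] at h2
    exact h2

end Pool.Agent.H80.JE
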