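import Pool.Agent.H80.JD.Walk

/-!
# Largest cluster diameter of the asymmetric binary perceptron with large margin

Definitions and statements of the modules of the board je_modules (MP_38f78d_pr). Every other
target may be used as a hypothesis.

The columns of the matrix are revealed one after the other. A column has a random type
`u : Fin K`. Core columns (`u = 0`, or `2 ≤ u` and the column sum is large) get a sign which
is never changed, the other (free) columns are flipped along a path. The state consists of the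
distances `a j` of the core sums from a moving barrier and of the free sums `t j`.
-/

set_option autoImplicit false

namespace Pool.Agent.H80.JE

open Finset Filter Topology Pool.Agent.H80.JD

/-! ## Definitions -/

/-- sum of the signs of a column -/
def csum {m : ℕ} (v : Fin m → Bool) : ℤ := ∑ j, sg (v j)

/-- the column sum is large -/
def Big (τ : ℝ) {m : ℕ} (v : Fin m → Bool) : Prop :=
  τ * Real.sqrt m < |((csum v : ℤ) : ℝ)|

open Classical in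
/-- the large columns -/
noncomputable def bigs (τ : ℝ) (m : ℕ) : Finset (Fin m → Bool) :=
  univ.filter (fun v => Big τ v)

/-- the sign of the column sum -/
noncomputable def cs {m : ℕ} (v : Fin m → Bool) : Bool := decide (csum v < 0)

/-- sum of `|column sum|` over the large columns -/
noncomputable def MB (τ : ℝ) (m : ℕ) : ℝ := ∑ v ∈ bigs τ m, |((csum v : ℤ) : ℝ)|

/-- minus the derivative of the one-sided barrier function `(B / a) ^ 4` -/
noncomputable def ww (B a : ℝ) : ℝ := 4 / B * (B / a) ^ 5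

/-- the one-sided barrier function -/
noncomputable def gg (B A a : ℝ) : ℝ := if 0 < a then (B / a) ^ 4 else A + 1

/-- states of the walk: distances of the core sums from the barrier, and free sums -/
abbrev St (m : ℕ) : Type := (Fin m → ℝ) × (Fin m → ℤ)

/-- the potential of a state -/
noncomputable def pot2 (B A : ℝ) {m : ℕ} (s : St m) : ℝ := (∑ j, gg B A (s.1 j)) + pot B A s.2

/-- core columns -/
def Core (τ : ℝ) {m K : ℕ} (v : Fin m → Bool) (u : Fin K) : Prop :=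
  (u : ℕ) = 0 ∨ (2 ≤ (u : ℕ) ∧ Big τ v)

open Classical in
/-- the sign of a column: greedy for the core potential (`u = 0`), sign of the column sum (other
core columns), greedy for the free potential (free columns) -/
noncomputable def bit (B τ : ℝ) {m K : ℕ} (s : St m) (v : Fin m → Bool) (u : Fin K) : Bool :=
  if (u : ℕ) = 0 then decide (lin (fun j => ww B (s.1 j)) v < 0)
  else if 2 ≤ (u : ℕ) ∧ Big τ v then cs v
  else choice B s.2 v

open Classical in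
/-- one step of the walk; `γ` is the speed of the barrier -/
noncomputable def stp2 (B γ τ : ℝ) {m K : ℕ} (s : St m) (c : (Fin m → Bool) × Fin K) : St m :=
  if Core τ c.1 c.2 then
    (fun j => s.1 j + ((sg (bit B τ s c.1 c.2) * sg (c.1 j) : ℤ) : ℝ) - γ, s.2)
  else
    (fun j => s.1 j - γ, fun j => s.2 j + sg (bit B τ s c.1 c.2) * sg (c.1 j))

/-- twice the standard normal density -/
noncomputable def ph (τ : ℝ) : ℝ := Real.sqrt (2 / Real.pi) * Real.exp (-(τ ^ 2 / 2))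

/-- the limit curve, as a function of `α κ ^ 2` -/
noncomputable def curve (c : ℝ) : ℝ := Φ (Real.sqrt (Real.log (2 / (Real.pi * c))))

/-! ## The final statements (captain) -/

/-- whp the largest cluster diameter of the ABP is at most `b n` -/
def ALe (κ α b : ℝ) : Prop :=
  Tendsto (fun n : ℕ => prob ⌊α * n⌋₊ n (fun G => (diam (ABP κ G) : ℝ) ≤ b * n)) atTop (𝓝 1)

/-- whp the largest cluster diameter of the ABP is at least `b n` -/
def AGe (κ α b : ℝ) : Prop :=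
  Tendsto (fun n : ℕ => prob ⌊α * n⌋₊ n (fun G => b * n ≤ (diam (ABP κ G) : ℝ))) atTop (𝓝 1)

/-- UPB: upper bound with a parameter `τ` -/
def T_UPB : Prop :=
  ∀ κ α τ b : ℝ, 0 < κ → 0 < α → 0 < τ →
    1 - (κ * Real.sqrt α - (ph τ - τ * (1 - Φ τ))) / τ < b → ALe κ α b

/-- LOW: lower bound with parameters `τ`, `K` -/
def T_LOW : Prop :=
  ∀ (K : ℕ) (κ α τ b : ℝ), 4 ≤ K → 0 < κ → 0 < α → 0 < τ →
    κ * Real.sqrt α + 96000 * K * α ≤ (1 - 3 / K) * ph τ → b < (1 - 2 / K) * Φ τ → AGe κ α b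

/-- the theorem -/
def StatementE : Prop :=
  (∀ κ α ε : ℝ, 0 < κ → 0 < α → 0 < ε → ALe κ α (curve (α * κ ^ 2) + ε)) ∧
  ∀ ε : ℝ, 0 < ε → ∃ κ₀ : ℝ, 0 < κ₀ ∧ ∀ κ : ℝ, κ₀ ≤ κ →
    (∀ α : ℝ, 0 < α → AGe κ α (curve (α * κ ^ 2) - ε)) ∧
    ∀ α₀ c δ : ℝ, 0 < α₀ →
      (∃ η > 0, (∀ α, α₀ - η < α → α < α₀ → AGe κ α (c + δ)) ∧
        ∀ α, α₀ < α → α < α₀ + η → ALe κ α c) → δ ≤ ε

/-! ## One step -/

/-- FSS: one step of the one-sided barrier function -/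
def T_FSS : Prop :=
  ∀ B a x : ℝ, 0 < B → 0 < a → B / a ≤ B / 24 → |x| ≤ 2 →
    0 < a + x ∧ (B / (a + x)) ^ 4 ≤ (B / a) ^ 4 - x * ww B a + 64 / B ^ 2 * (B / a) ^ 6

/-- ABS: second order terms against first order terms; `B = L √m` -/
def T_ABS : Prop :=
  ∀ (m : ℕ) (L B : ℝ) (q w : Fin m → ℝ), 1 ≤ m → 100 ≤ L → B = L * Real.sqrt m →
    (∀ j, 0 ≤ q j) → ∑ j, q j ^ 4 ≤ 128 * m → (∀ j, |w j| ≤ 8 / B * q j ^ 5) →
    (∀ j, 2 ≤ q j → 16 / B ^ 2 * q j ^ 10 ≤ w j ^ 2) →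
    (∀ j, q j ≤ B / 24) ∧
    148 / B ^ 2 * ∑ j, q j ^ 6 ≤ 210 / L * Real.sqrt (∑ j, w j ^ 2) + 75776 / L ^ 2 ∧
    (32 * m ≤ ∑ j, q j ^ 4 → 128 / L ≤ Real.sqrt (∑ j, w j ^ 2)) ∧
    ∑ j, w j ^ 2 ≤ 12000000 / L ^ 2 * (m * Real.sqrt m) ∧
    ∑ j, |w j| ≤ 4096 / L * m

/-- EXR: exponential moment of the greedy steps -/
def T_EXR : Prop :=
  ∀ (m : ℕ) (D : Fin m → ℝ) (R η : ℝ), 0 ≤ η → 0 ≤ R → R ^ 2 = ∑ j, D j ^ 2 → η * R ≤ 1 / 2 →
    ∑ v : Fin m → Bool, Real.exp (-(η * |lin D v|)) ≤ 2 ^ m * (1 - 7 / 32 * (η * R))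

/-- EXM: exponential moment over the large columns -/
def T_EXM : Prop :=
  ∀ (m : ℕ) (τ : ℝ) (D : Fin m → ℝ) (R η : ℝ), 0 ≤ η → 0 ≤ R → R ^ 2 = ∑ j, D j ^ 2 →
    η * R ≤ 1 →
    ∑ v ∈ bigs τ m, Real.exp (-(η * (((sg (cs v) : ℤ) : ℝ) * lin D v))) ≤
      (bigs τ m).card - η * ∑ v ∈ bigs τ m, ((sg (cs v) : ℤ) : ℝ) * lin D v +
        2 * (η * R) ^ 2 * 2 ^ m

/-- SYM: the mean over the large columns, by symmetry -/
def T_SYM : Prop :=
  ∀ (m : ℕ) (τ : ℝ) (D : Fin m → ℝ),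
    (∑ v ∈ bigs τ m, ((sg (cs v) : ℤ) : ℝ) * lin D v) * m = (∑ j, D j) * MB τ m

/-- ONE: one step of the walk; `L = 24000 K`, `B = L √m`, `η = 1 / (16 K m^(3/4))` -/
def T_ONE2 : Prop :=
  ∀ (m K : ℕ) (B γ τ : ℝ), 1 ≤ m → 4 ≤ K → B = 24000 * K * Real.sqrt m → 0 ≤ γ → γ ≤ 1 →
    γ * m * 2 ^ m ≤ (1 - 2 / K) * MB τ m →
    (∀ (s : St m) (c : (Fin m → Bool) × Fin K), pot2 B (128 * m) s < 64 * m →
      pot2 B (128 * m) (stp2 B γ τ s c) ≤ 72 * m) ∧
    ∀ s : St m, 64 * m ≤ pot2 B (128 * m) s → pot2 B (128 * m) s ≤ 128 * m →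
      ∑ c : (Fin m → Bool) × Fin K,
        Real.exp (1 / (16 * K * Real.sqrt (Real.sqrt m) ^ 3) * pot2 B (128 * m) (stp2 B γ τ s c)) ≤
      Fintype.card ((Fin m → Bool) × Fin K) *
        Real.exp (1 / (16 * K * Real.sqrt (Real.sqrt m) ^ 3) * pot2 B (128 * m) s)

/-! ## Paths -/

open Classical in
/-- PTH3: a walk which stays in the good set -/
def T_PTH3 : Prop :=
  ∀ (m K : ℕ) (B A γ τ : ℝ) (n : ℕ) (s : St m) (c : Fin n → (Fin m → Bool) × Fin K), 0 ≤ A →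
    ¬ badSeq (stp2 B γ τ) (pot2 B A) A n s c →
    ∃ x : Fin n → Bool,
      (∀ j : Fin m, 0 < s.1 j + ((∑ i ∈ univ.filter (fun i : Fin n => Core τ (c i).1 (c i).2),
        sg (x i) * sg ((c i).1 j) : ℤ) : ℝ) - n * γ) ∧
      ∀ t : ℕ, t ≤ n → ∀ j : Fin m, |((s.2 j + ∑ i ∈ univ.filter (fun i : Fin n =>
        ¬ Core τ (c i).1 (c i).2 ∧ (i : ℕ) < t), sg (x i) * sg ((c i).1 j) : ℤ) : ℝ)| < B

/-- PTH4: flipping the coordinates in `F` one after the other is a path in the solution set -/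
def T_PTH4 : Prop :=
  ∀ (m n : ℕ) (κ B β : ℝ) (G : Fin m → Fin n → Bool) (x : Fin n → Bool) (F : Finset (Fin n)),
    (∀ j : Fin m, β ≤ ((∑ i ∈ Fᶜ, sg (x i) * sg (G j i) : ℤ) : ℝ)) →
    (∀ t : ℕ, t ≤ n → ∀ j : Fin m, |((∑ i ∈ F.filter (fun i : Fin n => (i : ℕ) < t),
      sg (x i) * sg (G j i) : ℤ) : ℝ)| < B) →
    κ * Real.sqrt n + 3 * B ≤ β → F.card ≤ diam (ABP κ G)

/-! ## Means and the law of large numbers -/

/-- the mean of `(|V| / √m - τ)₊`, `V` a sum of `m` signs -/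
noncomputable def ev (m : ℕ) (τ : ℝ) : ℝ :=
  (∑ v : Fin m → Bool, max (|((csum v : ℤ) : ℝ)| / Real.sqrt m - τ) 0) / 2 ^ m

/-- EV1: the limit of `ev` -/
def T_EV1 : Prop :=
  ∀ τ : ℝ, 0 < τ → Tendsto (fun m : ℕ => ev m τ) atTop (𝓝 (ph τ - τ * (1 - Φ τ)))

/-- EV2: the limit of the mean over the large columns -/
def T_EV2 : Prop :=
  ∀ τ : ℝ, 0 < τ → Tendsto (fun m : ℕ => MB τ m / (Real.sqrt m * 2 ^ m)) atTop (𝓝 (ph τ))

/-- EV3: the limit of the fraction of the large columns -/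
def T_EV3 : Prop :=
  ∀ τ : ℝ, 0 < τ →
    Tendsto (fun m : ℕ => ((bigs τ m).card : ℝ) / 2 ^ m) atTop (𝓝 (1 - Φ τ))

/-- LLN: the law of large numbers (Chebyshev) -/
def T_LLN : Prop :=
  ∀ (V : Type) [Fintype V] [Nonempty V] (f : V → ℝ) (σ ε : ℝ) (n : ℕ), 1 ≤ n → 0 < ε →
    ∑ v, f v ^ 2 ≤ σ * Fintype.card V →
    (Nat.card {c : Fin n → V // ε * n ≤ |∑ i, f (c i) - n * ((∑ v, f v) / Fintype.card V)|} : ℝ) ≤
      σ / (ε ^ 2 * n) * (Fintype.card V : ℝ) ^ n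

/-- V2: second moment of the column sums -/
def T_V2 : Prop :=
  ∀ m : ℕ, ∑ v : Fin m → Bool, ((csum v : ℤ) : ℝ) ^ 2 = m * 2 ^ m

/-- DU: two solutions and the column sums -/
def T_DU : Prop :=
  ∀ (m n : ℕ) (κ τ : ℝ) (G : Fin m → Fin n → Bool) (x y : Fin n → Bool), 0 ≤ τ →
    ABP κ G x → ABP κ G y →
    m * (κ * Real.sqrt n) ≤
      (∑ i, max (|((csum (fun j => G j i) : ℤ) : ℝ)| - τ * Real.sqrt m) 0) +
        τ * Real.sqrt m * (n - hammingDist x y)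

/-- ASY: asymptotics of the failure probability -/
def T_ASY2 : Prop :=
  ∀ α c : ℝ, 0 < α → 0 < c → Tendsto (fun n : ℕ => ((n : ℝ) + 1) *
    Real.exp (-(c * Real.sqrt (Real.sqrt (⌊α * n⌋₊ : ℕ))))) atTop (𝓝 0)

/-! ## The curve -/

/-- CU1: the choice of `τ` in the upper bound -/
def T_CU1 : Prop :=
  ∀ c ε : ℝ, 0 < c → 0 < ε → ∃ τ : ℝ, 0 < τ ∧
    1 - (Real.sqrt c - (ph τ - τ * (1 - Φ τ))) / τ < curve c + ε

/-- CU2: the choice of `τ` and `K` in the lower bound -/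
def T_CU2 : Prop :=
  ∀ ε : ℝ, 0 < ε → ε < 1 → ∃ (K : ℕ) (κ₀ : ℝ), 4 ≤ K ∧ 0 < κ₀ ∧ ∀ κ α : ℝ, κ₀ ≤ κ → 0 < α →
    curve (α * κ ^ 2) ≤ ε ∨ ∃ τ : ℝ, 0 < τ ∧
      κ * Real.sqrt α + 96000 * K * α ≤ (1 - 3 / K) * ph τ ∧
      curve (α * κ ^ 2) - ε < (1 - 2 / K) * Φ τ

/-- CU3: the curve is continuous, nonincreasing and nonnegative -/
def T_CU3 : Prop :=
  (∀ c : ℝ, 0 < c → ContinuousAt curve c) ∧ (∀ c : ℝ, 0 ≤ curve c) ∧
    ∀ c d : ℝ, 0 < c → c ≤ d → curve d ≤ curve c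

end Pool.Agent.H80.JE
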