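import Pool.Agent.H80.JE.Targets

/-!
# Largest cluster diameter of the asymmetric perceptron: the upper bound
-/

set_option autoImplicit false

namespace Pool.Agent.H80.JE

open Finset Filter Topology Pool.Agent.H80.JD

/-- whp any two solutions of the ABP have distance at most `b n` -/
def PLe (κ α b : ℝ) : Prop :=
  Tendsto (fun n : ℕ => prob ⌊α * n⌋₊ n (fun G => ∀ x y, ABP κ G x → ABP κ G y →
    (hammingDist x y : ℝ) ≤ b * n)) atTop (𝓝 1)

/-- UPB: upper bound with a parameter `τ` -/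
def T_UPB' : Prop :=
  ∀ κ α τ b : ℝ, 0 < κ → 0 < α → 0 < τ →
    1 - (κ * Real.sqrt α - (ph τ - τ * (1 - Φ τ))) / τ < b → PLe κ α b

lemma tendsto_floor (α : ℝ) (hα : 0 < α) :
    Tendsto (fun n : ℕ => ⌊α * n⌋₊) atTop atTop := by
  refine tendsto_nat_floor_atTop.comp ?_
  exact Tendsto.const_mul_atTop hα tendsto_natCast_atTop_atTop

lemma tendsto_floor_div (α : ℝ) (hα : 0 < α) :
    Tendsto (fun n : ℕ => ((⌊α * n⌋₊ : ℕ) : ℝ) / n) atTop (𝓝 α) :=
  (tendsto_nat_floor_mul_div_atTop hα.le).comp tendsto_natCast_atTop_atTop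

lemma tendsto_inv_mul (ε : ℝ) :
    Tendsto (fun n : ℕ => 1 / (ε ^ 2 * (n : ℝ))) atTop (𝓝 0) := by
  have h := (tendsto_inv_atTop_nhds_zero_nat (𝕜 := ℝ)).const_mul (1 / ε ^ 2)
  rw [mul_zero] at h
  refine h.congr (fun n => ?_)
  rw [one_div, one_div, mul_inv]

/-- the deterministic part -/
lemma upb_det (hDU : T_DU) (κ α τ b e ε b' : ℝ) (hτ : 0 < τ) (hb' : b' = 1 - (κ * Real.sqrt α - e) / τ) (hbb : b' + 3 * ε / τ ≤ b)
    (m n : ℕ) (hm : 1 ≤ m) (hn : 1 ≤ n) (hev : ev m τ < e + ε)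
    (hsq : κ * Real.sqrt α - ε < κ * Real.sqrt ((m : ℝ) / n)) (G : Fin m → Fin n → Bool)
    (hF : |∑ i, max (|((csum (fun j => G j i) : ℤ) : ℝ)| / Real.sqrt m - τ) 0 - n * ev m τ| <
      ε * n) : ∀ x y, ABP κ G x → ABP κ G y → (hammingDist x y : ℝ) ≤ b * n := by
  have hm0 : (0 : ℝ) < m := by exact_mod_cast hm
  have hn0 : (0 : ℝ) < n := by exact_mod_cast hn
  have hsm : 0 < Real.sqrt m := Real.sqrt_pos.2 hm0
  set T : ℝ := ∑ i, max (|((csum (fun j => G j i) : ℤ) : ℝ)| / Real.sqrt m - τ) 0 with hT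
  have hT1 : T ≤ n * (e + 2 * ε) := by
    have h5 := (abs_lt.1 hF).2
    have h6 : (n : ℝ) * ev m τ ≤ n * (e + ε) := mul_le_mul_of_nonneg_left hev.le hn0.le
    nlinarith
  have hT2 : ∑ i, max (|((csum (fun j => G j i) : ℤ) : ℝ)| - τ * Real.sqrt m) 0 =
      Real.sqrt m * T := by
    rw [hT, Finset.mul_sum]
    refine Finset.sum_congr rfl (fun i _ => ?_)
    rw [mul_max_of_nonneg _ _ hsm.le, mul_zero]
    congr 1
    field_simp
  have hkey : ∀ x y, ABP κ G x → ABP κ G y → (hammingDist x y : ℝ) ≤ b * n := by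
    intro x y hx hy
    have h5 := hDU m n κ τ G x y hτ.le hx hy
    rw [hT2] at h5
    have hmm : (m : ℝ) = Real.sqrt m * Real.sqrt m := (Real.mul_self_sqrt hm0.le).symm
    have h6 : Real.sqrt m * (κ * Real.sqrt n) ≤ T + τ * (n - hammingDist x y) := by
      have h7 : Real.sqrt m * (Real.sqrt m * (κ * Real.sqrt n)) ≤
          Real.sqrt m * (T + τ * (n - hammingDist x y)) := by
        rw [← mul_assoc, ← hmm]
        linarith
      exact le_of_mul_le_mul_left h7 hsm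
    have h8 : Real.sqrt m * (κ * Real.sqrt n) = n * (κ * Real.sqrt ((m : ℝ) / n)) := by
      rw [Real.sqrt_div hm0.le]
      have h9 : (n : ℝ) = Real.sqrt n * Real.sqrt n := (Real.mul_self_sqrt hn0.le).symm
      have h10 : 0 < Real.sqrt n := Real.sqrt_pos.2 hn0
      field_simp
      rw [Real.sq_sqrt hn0.le]
    rw [h8] at h6
    have h11 : (n : ℝ) * (κ * Real.sqrt α - ε) ≤ n * (κ * Real.sqrt ((m : ℝ) / n)) :=
      mul_le_mul_of_nonneg_left hsq.le hn0.le
    have h12 : τ * (hammingDist x y : ℝ) ≤ τ * ((b' + 3 * ε / τ) * n) := by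
      have h13 : τ * ((b' + 3 * ε / τ) * n) = n * (τ - (κ * Real.sqrt α - e) + 3 * ε) := by
        rw [hb']; field_simp
      rw [h13]
      nlinarith
    have h14 := le_of_mul_le_mul_left h12 hτ
    exact h14.trans (mul_le_mul_of_nonneg_right hbb hn0.le)
  exact hkey

theorem upb (hEV1 : T_EV1) (hLLN : T_LLN) (hV2 : T_V2) (hDU : T_DU) : T_UPB' := by
  intro κ α τ b hκ hα hτ hb
  set e : ℝ := ph τ - τ * (1 - Φ τ) with he
  set b' : ℝ := 1 - (κ * Real.sqrt α - e) / τ with hb'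
  set ε : ℝ := (b - b') * τ / 4 with hε
  have hε0 : 0 < ε := by
    have : 0 < b - b' := by linarith
    positivity
  have hbb : b' + 3 * ε / τ ≤ b := by
    have h1 : 3 * ε / τ = 3 / 4 * (b - b') := by
      rw [hε]; field_simp
    rw [h1]; linarith
  refine tendsto_prob_one (m := fun n => ⌊α * n⌋₊)
    (fun n G => ∀ x y, ABP κ G x → ABP κ G y → (hammingDist x y : ℝ) ≤ b * n)
    (fun n G => ε * n ≤ |∑ i, max (|((csum (fun j => G j i) : ℤ) : ℝ)| /
        Real.sqrt (⌊α * n⌋₊ : ℕ) - τ) 0 - n * ev ⌊α * n⌋₊ τ|)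
    (fun n => 1 / (ε ^ 2 * (n : ℝ))) ?_ ?_ (tendsto_inv_mul ε)
  · -- deterministic part
    have h1 : ∀ᶠ n : ℕ in atTop, 1 ≤ ⌊α * n⌋₊ := (tendsto_floor α hα).eventually_ge_atTop 1
    have h2 : ∀ᶠ n : ℕ in atTop, ev ⌊α * n⌋₊ τ < e + ε :=
      ((hEV1 τ hτ).comp (tendsto_floor α hα)).eventually_lt_const (by linarith)
    have h3 : Tendsto (fun n : ℕ => κ * Real.sqrt (((⌊α * n⌋₊ : ℕ) : ℝ) / n)) atTop
        (𝓝 (κ * Real.sqrt α)) :=
      ((Real.continuous_sqrt.tendsto _).comp (tendsto_floor_div α hα)).const_mul κ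
    have h4 : ∀ᶠ n : ℕ in atTop, κ * Real.sqrt α - ε <
        κ * Real.sqrt (((⌊α * n⌋₊ : ℕ) : ℝ) / n) := h3.eventually_const_lt (by linarith)
    filter_upwards [h1, h2, h4, eventually_ge_atTop 1] with n hm hev hsq hn G hG
    by_contra hF
    rw [not_le] at hF
    exact hG (upb_det hDU κ α τ b e ε b' hτ hb' hbb _ n hm hn hev hsq G hF)
  · -- Chebyshev
    have h1 : ∀ᶠ n : ℕ in atTop, 1 ≤ ⌊α * n⌋₊ := (tendsto_floor α hα).eventually_ge_atTop 1
    filter_upwards [h1, eventually_ge_atTop 1] with n hm hn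
    set m : ℕ := ⌊α * n⌋₊ with hmdef
    have hm0 : (0 : ℝ) < m := by exact_mod_cast hm
    have hn0 : (0 : ℝ) < n := by exact_mod_cast hn
    have hsm : 0 < Real.sqrt m := Real.sqrt_pos.2 hm0
    set f : (Fin m → Bool) → ℝ :=
      fun v => max (|((csum v : ℤ) : ℝ)| / Real.sqrt m - τ) 0 with hf
    have hcard : (Fintype.card (Fin m → Bool) : ℝ) = 2 ^ m := by simp
    have hf2 : ∑ v, f v ^ 2 ≤ 1 * Fintype.card (Fin m → Bool) := by
      have h5 : ∀ v, f v ^ 2 ≤ ((csum v : ℤ) : ℝ) ^ 2 / m := by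
        intro v
        have h6 : 0 ≤ |((csum v : ℤ) : ℝ)| / Real.sqrt m := by positivity
        have h7 : f v ≤ |((csum v : ℤ) : ℝ)| / Real.sqrt m := max_le (by linarith) h6
        have h8 : 0 ≤ f v := le_max_right _ _
        have h9 : f v ^ 2 ≤ (|((csum v : ℤ) : ℝ)| / Real.sqrt m) ^ 2 :=
          pow_le_pow_left₀ h8 h7 2
        rw [div_pow, sq_abs, Real.sq_sqrt hm0.le] at h9
        exact h9
      calc ∑ v, f v ^ 2 ≤ ∑ v, ((csum v : ℤ) : ℝ) ^ 2 / m := Finset.sum_le_sum fun v _ => h5 v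
        _ = (m * 2 ^ m) / m := by rw [← Finset.sum_div, hV2]
        _ = 1 * Fintype.card (Fin m → Bool) := by rw [hcard]; field_simp
    have hL := hLLN (Fin m → Bool) f 1 ε n hn hε0 hf2
    have hmean : (∑ v, f v) / Fintype.card (Fin m → Bool) = ev m τ := by
      rw [hcard]; rfl
    rw [hmean, hcard] at hL
    have htr : Nat.card {G : Fin m → Fin n → Bool // ε * n ≤ |∑ i, f (fun j => G j i) -
        n * ev m τ|} = Nat.card {c : Fin n → Fin m → Bool // ε * n ≤ |∑ i, f (c i) -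
        n * ev m τ|} := by
      refine Nat.card_congr ?_
      exact (Equiv.piComm (fun (_ : Fin m) (_ : Fin n) => Bool)).subtypeEquiv (fun G => Iff.rfl)
    unfold prob
    rw [htr, div_le_iff₀ (by positivity)]
    have hpow : ((2 : ℝ) ^ m) ^ n = 2 ^ (m * n) := by rw [← pow_mul]
    rw [hpow] at hL
    exact hL

end Pool.Agent.H80.JE
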